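import Pool.Agent.H626Z.RSub.Defs

set_option autoImplicit false
set_option maxHeartbeats 400000

namespace Pool.Agent.H626Z.RSub

/-- Thue-Morse -/
def tm (n : ℕ) : Bool :=
  if h : n = 0 then false else xor (tm (n / 2)) (decide (n % 2 = 1))
termination_by n
decreasing_by omega

lemma tm_even (n : ℕ) : tm (2 * n) = tm n := by
  by_cases h : n = 0
  · subst h; rfl
  · rw [tm, dif_neg (by omega), show 2 * n / 2 = n by omega]
    simp

lemma tm_odd (n : ℕ) : tm (2 * n + 1) = !tm n := by
  rw [tm, dif_neg (by omega), show (2 * n + 1) / 2 = n by omega]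
  simp [Nat.add_mod]

def dd (j i : ℕ) : ℕ := if tm i = tm (i + j) then 0 else 1

def FF (j N : ℕ) : ℕ := ∑ i ∈ Finset.range N, dd j i

lemma dd_le (j i : ℕ) : dd j i ≤ 1 := by unfold dd; split_ifs <;> omega

lemma FF_succ (j N : ℕ) : FF j (N + 1) = FF j N + dd j N := Finset.sum_range_succ _ _

lemma FF_lip (j N M : ℕ) : FF j N ≤ FF j (N + M) ∧ FF j (N + M) ≤ FF j N + M := by
  induction M with
  | zero => simp
  | succ M ih =>
    rw [← add_assoc, FF_succ]
    have := dd_le j (N + M)
    omega

lemma FF_even (j N : ℕ) : FF (2 * j) (2 * N) = 2 * FF j N := by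
  induction N with
  | zero => simp [FF]
  | succ N ih =>
    rw [show 2 * (N + 1) = 2 * N + 1 + 1 by ring, FF_succ, FF_succ, FF_succ, ih]
    have h1 : dd (2 * j) (2 * N) = dd j N := by
      unfold dd
      rw [show 2 * N + 2 * j = 2 * (N + j) by ring, tm_even, tm_even]
    have h2 : dd (2 * j) (2 * N + 1) = dd j N := by
      unfold dd
      rw [show 2 * N + 1 + 2 * j = 2 * (N + j) + 1 by ring, tm_odd, tm_odd]
      simp
    omega

lemma FF_odd (j N : ℕ) : FF (2 * j + 1) (2 * N) + FF j N + FF (j + 1) N = 2 * N := by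
  induction N with
  | zero => simp [FF]
  | succ N ih =>
    rw [show 2 * (N + 1) = 2 * N + 1 + 1 by ring, FF_succ, FF_succ, FF_succ, FF_succ]
    have h1 : dd (2 * j + 1) (2 * N) + dd j N = 1 := by
      unfold dd
      rw [show 2 * N + (2 * j + 1) = 2 * (N + j) + 1 by ring, tm_even, tm_odd]
      cases tm N <;> cases tm (N + j) <;> simp
    have h2 : dd (2 * j + 1) (2 * N + 1) + dd (j + 1) N = 1 := by
      unfold dd
      rw [show 2 * N + 1 + (2 * j + 1) = 2 * (N + (j + 1)) by ring, tm_odd, tm_even]
      cases tm N <;> cases tm (N + (j + 1)) <;> simp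
    omega

lemma FF_zero (N : ℕ) : FF 0 N = 0 := by simp [FF, dd]

lemma halve (j N : ℕ) : FF j (2 * (N / 2)) ≤ FF j N ∧ FF j N ≤ FF j (2 * (N / 2)) + 1 := by
  have := FF_lip j (2 * (N / 2)) (N % 2)
  rw [show 2 * (N / 2) + N % 2 = N by omega] at this
  omega

lemma FF_one_lower (N M : ℕ) (h : N ≤ M) : M + 2 * FF 1 N ≤ N + 2 * FF 1 M + 8 := by
  have a1 := halve 1 N
  have a2 := halve 1 M
  have b1 := FF_odd 0 (N / 2)
  have b2 := FF_odd 0 (M / 2)
  have c := FF_lip 1 (N / 2) (M / 2 - N / 2)
  rw [show N / 2 + (M / 2 - N / 2) = M / 2 by omega] at c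
  simp only [FF_zero, mul_zero, zero_add, add_zero] at b1 b2
  omega

lemma FF_bounds (j : ℕ) (hj : 1 ≤ j) : ∃ C, ∀ N M, N ≤ M →
    M + 4 * FF j N ≤ N + 4 * FF j M + C ∧ 4 * FF j M + 3 * N ≤ 4 * FF j N + 3 * M + C := by
  induction j using Nat.strong_induction_on with
  | _ j ih =>
    rcases Nat.even_or_odd' j with ⟨i, rfl | rfl⟩
    · obtain ⟨C, hC⟩ := ih i (by omega) (by omega)
      refine ⟨2 * C + 16, fun N M h => ?_⟩
      have a1 := halve (2 * i) N
      have a2 := halve (2 * i) M
      rw [FF_even] at a1 a2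
      have := hC (N / 2) (M / 2) (by omega)
      omega
    · by_cases hi : i = 0
      · subst hi
        refine ⟨40, fun N M h => ?_⟩
        have a1 := halve 1 N
        have a2 := halve 1 M
        have b1 := FF_odd 0 (N / 2)
        have b2 := FF_odd 0 (M / 2)
        have c1 := FF_one_lower N M h
        have c2 := FF_one_lower (N / 2) (M / 2) (by omega)
        simp only [FF_zero, mul_zero, zero_add, add_zero] at b1 b2 ⊢
        omega
      · obtain ⟨C, hC⟩ := ih i (by omega) (by omega)
        obtain ⟨C', hC'⟩ := ih (i + 1) (by omega) (by omega)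
        refine ⟨C + C' + 16, fun N M h => ?_⟩
        have a1 := halve (2 * i + 1) N
        have a2 := halve (2 * i + 1) M
        have b1 := FF_odd i (N / 2)
        have b2 := FF_odd i (M / 2)
        have := hC (N / 2) (M / 2) (by omega)
        have := hC' (N / 2) (M / 2) (by omega)
        omega

/-- swap bits -/
def eta (p : ℕ) : Bool := tm (p / 3)

/-- the deterministic Fibonacci substitution -/
def th : List Bool → List Bool
  | [] => []
  | false :: w => false :: true :: th w
  | true :: w => false :: th w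

/-- the swapped realisation, started at position `p` -/
def sw : ℕ → List Bool → List Bool
  | _, [] => []
  | p, false :: w => eta (p + 1) :: (!eta (p + 1)) :: sw (p + 2) w
  | p, true :: w => false :: sw (p + 1) w

lemma th_mem (w : List Bool) : th w ∈ fib.onWord w := by
  induction w with
  | nil => exact ⟨[], List.Forall₂.nil, rfl⟩
  | cons c w ih =>
    obtain ⟨us, h1, h2⟩ := ih
    cases c
    · exact ⟨[false, true] :: us, List.Forall₂.cons (by decide) h1, by simp [th, h2]⟩
    · exact ⟨[false] :: us, List.Forall₂.cons (by decide) h1, by simp [th, h2]⟩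

lemma sw_mem (p : ℕ) (w : List Bool) : sw p w ∈ fib.onWord w := by
  induction w generalizing p with
  | nil => exact ⟨[], List.Forall₂.nil, rfl⟩
  | cons c w ih =>
    cases c
    · obtain ⟨us, h1, h2⟩ := ih (p + 2)
      refine ⟨[eta (p + 1), !eta (p + 1)] :: us, List.Forall₂.cons ?_ h1, by simp [sw, h2]⟩
      cases eta (p + 1) <;> decide
    · obtain ⟨us, h1, h2⟩ := ih (p + 1)
      exact ⟨[false] :: us, List.Forall₂.cons (by decide) h1, by simp [sw, h2]⟩

lemma length_sw (p : ℕ) (w : List Bool) : (sw p w).length = (th w).length := by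
  induction w generalizing p with
  | nil => rfl
  | cons c w ih => cases c <;> simp [sw, th, ih]

lemma sw_at (p : ℕ) (w : List Bool) (i : ℕ) (h : (th w).getD i false = true) :
    (sw p w).getD i false = !eta (p + i) := by
  induction w generalizing p i with
  | nil => simp [th] at h
  | cons c w ih =>
    cases c
    · match i, h with
      | 0, h => simp [th] at h
      | 1, _ => simp [sw]
      | i + 2, h =>
        simp only [th, sw, List.getD_cons_succ] at h ⊢
        rw [ih _ _ h, show p + 2 + i = p + (i + 2) by ring]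
    · match i, h with
      | 0, h => simp [th] at h
      | i + 1, h =>
        simp only [th, sw, List.getD_cons_succ] at h ⊢
        rw [ih _ _ h, show p + 1 + i = p + (i + 1) by ring]

lemma no_aaa (w : List Bool) :
    (th (th w) = [] ∨ ∃ t, th (th w) = false :: true :: t) ∧
    ∀ i, i + 2 < (th (th w)).length → (th (th w)).getD i false = true ∨
      (th (th w)).getD (i + 1) false = true ∨ (th (th w)).getD (i + 2) false = true := by
  induction w with
  | nil => simp [th]
  | cons c w ih =>
    obtain ⟨h1, h2⟩ := ih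
    cases c
    · refine ⟨Or.inr ⟨_, rfl⟩, fun i hi => ?_⟩
      simp only [th] at hi ⊢
      match i, hi with
      | 0, _ => simp
      | 1, _ => simp
      | 2, hi =>
        rcases h1 with h1 | ⟨t, h1⟩
        · simp [h1] at hi
        · simp [h1]
      | i + 3, hi =>
        simp only [List.getD_cons_succ]
        exact h2 i (by simp only [List.length_cons] at hi; omega)
    · refine ⟨Or.inr ⟨_, rfl⟩, fun i hi => ?_⟩
      simp only [th] at hi ⊢
      match i, hi with
      | 0, _ => simp
      | 1, _ => simp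
      | i + 2, hi =>
        simp only [List.getD_cons_succ]
        exact h2 i (by simp only [List.length_cons] at hi; omega)

def WW : ℕ → List Bool
  | 0 => [false]
  | n + 1 => th (WW n)

lemma length_th (w : List Bool) : w.length ≤ (th w).length := by
  induction w with
  | nil => simp
  | cons c w ih => cases c <;> simp [th] <;> omega

lemma WW_length (n : ℕ) : ∃ t, WW n = false :: t ∧ n ≤ t.length := by
  induction n with
  | zero => exact ⟨[], rfl, le_rfl⟩
  | succ n ih =>
    obtain ⟨t, h1, h2⟩ := ih
    refine ⟨true :: th t, by simp [WW, h1, th], ?_⟩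
    have := length_th t
    simp
    omega

lemma WW_mem (n : ℕ) : WW n ∈ fib.pow n false := by
  induction n with
  | zero => rfl
  | succ n ih =>
    unfold RandSubst.pow at ih ⊢
    rw [Function.iterate_succ_apply']
    exact Set.mem_biUnion ih (th_mem _)

lemma sw_WW_mem (n : ℕ) : sw 0 (WW n) ∈ fib.pow (n + 1) false := by
  have ih := WW_mem n
  unfold RandSubst.pow at ih ⊢
  rw [Function.iterate_succ_apply']
  exact Set.mem_biUnion ih (sw_mem _ _)

lemma window_infix (v : List Bool) (p l : ℕ) (h : p + l ≤ v.length) :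
    (List.ofFn fun j : Fin l => v.getD (p + j) false) <:+: v := by
  have : (List.ofFn fun j : Fin l => v.getD (p + j) false) = (v.drop p).take l := by
    apply List.ext_getElem
    · simp; omega
    · intro i h1 h2
      simp only [List.length_ofFn] at h1
      simp only [List.getElem_ofFn, List.getElem_take, List.getElem_drop]
      exact List.getD_eq_getElem _ _ (by omega)
  rw [this]
  exact ((List.take_prefix _ _).isInfix).trans (List.drop_suffix _ _).isInfix

/-- mismatch indicator -/
def mis (a b c d : Bool) : ℕ := if a = b ∧ c = d then 0 else 1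

/-- the two finite words -/
def zz (n i : ℕ) : Bool := (WW (n + 2)).getD i false

def xx (n i : ℕ) : Bool := (sw 0 (WW (n + 1))).getD i false

def mm (n j i : ℕ) : ℕ := mis (zz n i) (zz n (i + 3 * j)) (xx n i) (xx n (i + 3 * j))

lemma block (n j k : ℕ) (h : 3 * k + 2 < (WW (n + 2)).length) :
    dd j k ≤ mm n j (3 * k) + mm n j (3 * k + 1) + mm n j (3 * k + 2) := by
  unfold dd
  split_ifs with ht
  · omega
  have key : ∀ r, r < 3 → zz n (3 * k + r) = true → mm n j (3 * k + r) = 1 := by
    intro r hr hz
    unfold mm mis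
    rw [if_neg]
    rintro ⟨h1, h2⟩
    have a1 := sw_at 0 (WW (n + 1)) _ hz
    have a2 := sw_at 0 (WW (n + 1)) _ (h1.symm.trans hz)
    unfold xx at h2
    rw [a1, a2] at h2
    unfold eta at h2
    rw [show (0 + (3 * k + r)) / 3 = k by omega,
      show (0 + (3 * k + r + 3 * j)) / 3 = k + j by omega] at h2
    exact ht (Bool.not_inj h2)
  rcases (no_aaa (WW n)).2 (3 * k) h with h1 | h1 | h1
  · have := key 0 (by omega) h1
    simp only [add_zero] at this
    omega
  · have := key 1 (by omega) h1
    omega
  · have := key 2 (by omega) h1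
    omega

lemma blocks (n j k L : ℕ) (h : 3 * (k + L) ≤ (WW (n + 2)).length) :
    FF j (k + L) + ∑ i ∈ Finset.range (3 * k), mm n j i ≤
      FF j k + ∑ i ∈ Finset.range (3 * (k + L)), mm n j i := by
  induction L with
  | zero => simp
  | succ L ih =>
    have h1 := ih (by omega)
    have h2 := block n j (k + L) (by omega)
    rw [← add_assoc, FF_succ, show 3 * (k + L + 1) = 3 * (k + L) + 1 + 1 + 1 by ring,
      Finset.sum_range_succ, Finset.sum_range_succ, Finset.sum_range_succ]
    rw [show 3 * (k + L) + 1 + 1 = 3 * (k + L) + 2 by ring]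
    omega

theorem windows (j : ℕ) (hj : 1 ≤ j) : ∃ L, 0 < L ∧ ∀ n P, P + L ≤ (WW (n + 2)).length →
    L ≤ 32 * ∑ i ∈ Finset.range L, mm n j (P + i) := by
  obtain ⟨C, hC⟩ := FF_bounds j hj
  refine ⟨3 * (2 * C + 4) + 3, by omega, fun n P h => ?_⟩
  set k := (P + 2) / 3 with hk
  have h1 := blocks n j k (2 * C + 4) (by omega)
  have h2 := (hC k (k + (2 * C + 4)) (by omega)).1
  have h3 := Finset.sum_range_add (mm n j) P (3 * (2 * C + 4) + 3)
  have h4 : ∑ i ∈ Finset.range P, mm n j i ≤ ∑ i ∈ Finset.range (3 * k), mm n j i :=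
    Finset.sum_le_sum_of_subset (Finset.range_mono (by omega))
  have h5 : ∑ i ∈ Finset.range (3 * (k + (2 * C + 4))), mm n j i ≤
      ∑ i ∈ Finset.range (P + (3 * (2 * C + 4) + 3)), mm n j i :=
    Finset.sum_le_sum_of_subset (Finset.range_mono (by omega))
  omega

end Pool.Agent.H626Z.RSub
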