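import Mathlib

set_option autoImplicit false

namespace Pool.Agent.H626Z.RSub

open MeasureTheory

/-- A random substitution: each letter has a finite non-empty set of non-empty realisations. -/
structure RandSubst (A : Type) where
  img : A → Finset (List A)
  img_nonempty : ∀ a, (img a).Nonempty
  ne_nil : ∀ a, ∀ u ∈ img a, u ≠ []

variable {A : Type}

/-- The action on words: all concatenations `u₁ ⋯ uₙ` with `uᵢ ∈ ϑ(aᵢ)`. -/
def RandSubst.onWord (ϑ : RandSubst A) (w : List A) : Set (List A) :=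
  {v | ∃ us : List (List A), List.Forall₂ (fun a u => u ∈ ϑ.img a) w us ∧ v = us.flatten}

/-- The action on sets of words. -/
def RandSubst.onSet (ϑ : RandSubst A) (W : Set (List A)) : Set (List A) :=
  ⋃ w ∈ W, ϑ.onWord w

/-- `ϑⁿ(a)`. -/
def RandSubst.pow (ϑ : RandSubst A) (n : ℕ) (a : A) : Set (List A) :=
  ϑ.onSet^[n] {[a]}

/-- Legal words: subwords (contiguous factors) of an element of some `ϑⁿ(a)`, `n ≥ 1`. -/
def RandSubst.Legal (ϑ : RandSubst A) (w : List A) : Prop :=
  ∃ n, 1 ≤ n ∧ ∃ a, ∃ v ∈ ϑ.pow n a, w <:+: v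

/-- The subshift `X_ϑ`: sequences all of whose finite subwords are legal. -/
def RandSubst.subshift (ϑ : RandSubst A) : Set (ℤ → A) :=
  {x | ∀ (i : ℤ) (l : ℕ), ϑ.Legal (List.ofFn fun j : Fin l => x (i + (j : ℕ)))}

/-- Compatible: all realisations of a letter have the same letter counts. -/
def RandSubst.Compatible [DecidableEq A] (ϑ : RandSubst A) : Prop :=
  ∀ a, ∀ u ∈ ϑ.img a, ∀ v ∈ ϑ.img a, ∀ b, u.count b = v.count b

/-- A Pisot number: a real algebraic integer `> 1` whose other conjugates have modulus `< 1`. -/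
def IsPisot (x : ℝ) : Prop :=
  1 < x ∧ IsIntegral ℤ x ∧
    ∀ z : ℂ, Polynomial.aeval z (minpoly ℚ x) = 0 → z ≠ (x : ℂ) → ‖z‖ < 1

/-- Irreducible Pisot: the substitution matrix `M` is primitive, its characteristic polynomial is
irreducible over `ℚ`, and its Perron-Frobenius eigenvalue (the real eigenvalue that dominates
the moduli of all complex eigenvalues) is a Pisot number. -/
def RandSubst.IrreduciblePisot [Fintype A] [DecidableEq A] (ϑ : RandSubst A) : Prop :=
  ∃ M : Matrix A A ℤ, (∀ a b, ∀ u ∈ ϑ.img b, M a b = u.count a) ∧ M.IsPrimitive ∧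
    Irreducible (M.map (Int.cast : ℤ → ℚ)).charpoly ∧
    ∃ x : ℝ, Polynomial.aeval x M.charpoly = 0 ∧
      (∀ z : ℂ, Polynomial.aeval z M.charpoly = 0 → ‖z‖ ≤ x) ∧ IsPisot x

/-- The left shift. -/
def shift (x : ℤ → A) : ℤ → A := fun i => x (i + 1)

/-- `Y` is a minimal subsystem of `X`. -/
def IsMinimalSubsystem [TopologicalSpace A] (X Y : Set (ℤ → A)) : Prop :=
  Y ⊆ X ∧ Y.Nonempty ∧ IsClosed Y ∧ shift '' Y = Y ∧
    ∀ Z ⊆ Y, Z.Nonempty → IsClosed Z → shift '' Z = Z → Z = Y

/-- The eigenvectors of `U` span a dense subspace. -/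
def EigenDense {E : Type} [NormedAddCommGroup E] [NormedSpace ℂ E] (U : E →ₗᵢ[ℂ] E) : Prop :=
  Dense (Submodule.span ℂ {f : E | ∃ c : ℂ, U f = c • f} : Set E)

/-- The Koopman operator `f ↦ f ∘ T` on `L²(μ)` has pure point spectrum. -/
def KoopmanPurePoint {X : Type} [MeasurableSpace X] (μ : Measure X) (T : X → X)
    (h : MeasurePreserving T μ μ) : Prop :=
  EigenDense (E := Lp ℂ 2 μ) (Lp.compMeasurePreservingₗᵢ ℂ T h)

/-- `(Y, S)` is a pure point system: for every shift-invariant probability measure `μ` on `Y` the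
eigenfunctions of the Koopman operator span a dense subspace of `L²(Y, μ)`. -/
def IsPurePoint [MeasurableSpace A] (Y : Set (ℤ → A)) : Prop :=
  ∀ (hY : Set.MapsTo shift Y Y) (μ : Measure Y) [IsProbabilityMeasure μ]
    (h : MeasurePreserving (hY.restrict shift Y Y) μ μ),
    KoopmanPurePoint μ (hY.restrict shift Y Y) h

/-- The random Fibonacci substitution `a ↦ {ab, ba}`, `b ↦ {a}` with `a = false`, `b = true`. -/
def fib : RandSubst Bool where
  img c := if c then {[false]} else {[false, true], [true, false]}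
  img_nonempty := by decide
  ne_nil := by decide

end Pool.Agent.H626Z.RSub
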