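import Mathlib

set_option autoImplicit false
set_option maxHeartbeats 400000

namespace Pool.Agent.H626Z.RSub

open MeasureTheory Set Filter Topology

/-- Krylov-Bogolyubov -/
theorem krylov {X : Type*} [TopologicalSpace X] [CompactSpace X]
    [TopologicalSpace.MetrizableSpace X] [Nonempty X] [MeasurableSpace X] [BorelSpace X]
    (T : X → X) (hT : Continuous T) :
    ∃ μ : Measure X, IsProbabilityMeasure μ ∧ MeasurePreserving T μ μ := by
  classical
  obtain ⟨x0⟩ := ‹Nonempty X›
  let mm : ℕ → Measure X := fun n =>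
    ((n + 1 : ℕ) : ENNReal)⁻¹ • ∑ i ∈ Finset.range (n + 1), Measure.dirac (T^[i] x0)
  have hmm : ∀ n, IsProbabilityMeasure (mm n) := fun n => ⟨by
    simp only [mm, Measure.smul_apply, Measure.coe_finsetSum, Finset.sum_apply, measure_univ,
      Finset.sum_const, Finset.card_range, nsmul_eq_mul, mul_one, smul_eq_mul]
    exact ENNReal.inv_mul_cancel (by simp) (by simp)⟩
  let m : ℕ → ProbabilityMeasure X := fun n => ⟨mm n, hmm n⟩
  have hint : ∀ (n : ℕ) (f : BoundedContinuousFunction X ℝ), ∫ x, f x ∂(m n : Measure X)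
      = ((n : ℝ) + 1)⁻¹ * ∑ i ∈ Finset.range (n + 1), f (T^[i] x0) := by
    intro n f
    show ∫ x, f x ∂(mm n) = _
    simp only [mm]
    rw [integral_smul_measure, integral_finsetSum_measure fun i _ => f.integrable _]
    simp only [integral_dirac, smul_eq_mul, ENNReal.toReal_inv, ENNReal.toReal_natCast]
    push_cast
    rfl
  let U : Ultrafilter ℕ := Ultrafilter.of atTop
  have hU : (U : Filter ℕ) ≤ atTop := Ultrafilter.of_le atTop
  let μ : ProbabilityMeasure X := (U.map m).lim
  have hμ : Tendsto m U (𝓝 μ) := (U.map m).le_nhds_lim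
  have hμf := ProbabilityMeasure.tendsto_iff_forall_integral_tendsto.1 hμ
  have hinv : ∀ (f : BoundedContinuousFunction X ℝ),
      ∫ x, f (T x) ∂(μ : Measure X) = ∫ x, f x ∂(μ : Measure X) := by
    intro f
    have h1 := hμf f
    have h2 := hμf (f.compContinuous ⟨T, hT⟩)
    have h3 : Tendsto (fun n : ℕ => (∫ x, (f.compContinuous ⟨T, hT⟩) x ∂(m n : Measure X))
        - ∫ x, f x ∂(m n : Measure X)) U (𝓝 0) := by
      have h4 : Tendsto (fun n : ℕ => (2 * ‖f‖) * (1 / ((n : ℝ) + 1))) U (𝓝 ((2 * ‖f‖) * 0)) :=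
        (tendsto_one_div_add_atTop_nhds_zero_nat.mono_left hU).const_mul _
      rw [mul_zero] at h4
      refine squeeze_zero_norm (fun n => ?_) h4
      rw [hint, hint, ← mul_sub, ← Finset.sum_sub_distrib]
      have e : ∑ i ∈ Finset.range (n + 1), ((f.compContinuous ⟨T, hT⟩) (T^[i] x0) - f (T^[i] x0))
          = f (T^[n + 1] x0) - f (T^[0] x0) := by
        rw [← Finset.sum_range_sub (fun i => f (T^[i] x0))]
        refine Finset.sum_congr rfl fun i _ => ?_
        rw [Function.iterate_succ_apply']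
        rfl
      rw [e, norm_mul, norm_inv, Real.norm_of_nonneg (by positivity), one_div, mul_comm]
      refine mul_le_mul_of_nonneg_right ?_ (by positivity)
      refine (norm_sub_le _ _).trans ?_
      linarith [f.norm_coe_le_norm (T^[n + 1] x0), f.norm_coe_le_norm (T^[0] x0)]
    have h5 := tendsto_nhds_unique h3 (h2.sub h1)
    have h6 : (∫ x, (f.compContinuous ⟨T, hT⟩) x ∂(μ : Measure X)) = ∫ x, f x ∂(μ : Measure X) := by
      linarith
    exact h6
  refine ⟨μ, inferInstance, ⟨hT.measurable, ?_⟩⟩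
  have : IsProbabilityMeasure ((μ : Measure X).map T) :=
    Measure.isProbabilityMeasure_map hT.measurable.aemeasurable
  refine ext_of_forall_integral_eq_of_IsFiniteMeasure fun f => ?_
  rw [integral_map hT.measurable.aemeasurable f.continuous.aestronglyMeasurable]
  exact hinv f

/-- existence of minimal sets -/
theorem exists_minimal {X : Type*} [TopologicalSpace X] [CompactSpace X] [T2Space X]
    (T : X → X) (hT : Continuous T) (W : Set X) (h1 : W.Nonempty) (h2 : IsClosed W)
    (h3 : MapsTo T W W) :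
    ∃ W₀ ⊆ W, W₀.Nonempty ∧ IsClosed W₀ ∧ T '' W₀ = W₀ ∧
      ∀ Z ⊆ W₀, Z.Nonempty → IsClosed Z → MapsTo T Z Z → Z = W₀ := by
  obtain ⟨m, hmW, hm⟩ := zorn_superset_nonempty
    {Z : Set X | Z.Nonempty ∧ IsClosed Z ∧ MapsTo T Z Z} (by
      intro c hc hch hne
      refine ⟨⋂₀ c, ⟨?_, isClosed_sInter fun Z hZ => (hc hZ).2.1, ?_⟩,
        fun s hs => sInter_subset_of_mem hs⟩
      · have : Nonempty c := hne.to_subtype
        refine IsCompact.nonempty_sInter_of_directed_nonempty_isCompact_isClosed ?_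
          (fun U hU => (hc hU).1) (fun U hU => (hc hU).2.1.isCompact) (fun U hU => (hc hU).2.1)
        intro a ha b hb
        rcases hch.total ha hb with h | h
        · exact ⟨a, ha, Subset.rfl, h⟩
        · exact ⟨b, hb, h, Subset.rfl⟩
      · intro x hx Z hZ
        exact (hc hZ).2.2 (hx Z hZ)) W ⟨h1, h2, h3⟩
  have key : ∀ Z ⊆ m, Z.Nonempty → IsClosed Z → MapsTo T Z Z → Z = m := fun Z hZ a b c =>
    Subset.antisymm hZ (hm.2 ⟨a, b, c⟩ hZ)
  obtain ⟨a, b, c⟩ := hm.1
  refine ⟨m, hmW, a, b, key _ c.image_subset (a.image T) (b.isCompact.image hT).isClosed ?_, key⟩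
  rintro _ ⟨x, hx, rfl⟩
  exact ⟨T x, c hx, rfl⟩

/-- orbits of vectors in the closed span of eigenvectors are approximated in compact sets -/
theorem approx_compact {E : Type*} [NormedAddCommGroup E] [NormedSpace ℂ E] (U : E →ₗᵢ[ℂ] E)
    (hd : Dense (Submodule.span ℂ {f : E | ∃ c : ℂ, U f = c • f} : Set E)) (f : E) {ε : ℝ}
    (hε : 0 < ε) : ∃ K : Set E, IsCompact K ∧ ∃ g : ℕ → E, (∀ n, g n ∈ K) ∧
      ∀ n, dist (U^[n] f) (g n) < ε := by
  obtain ⟨g, hg, hfg⟩ := hd.exists_dist_lt f hε
  have hiso : ∀ n (a b : E), dist (U^[n] a) (U^[n] b) = dist a b := by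
    intro n a b
    induction n with
    | zero => rfl
    | succ n ih => rw [Function.iterate_succ_apply', Function.iterate_succ_apply', U.dist_map, ih]
  have hK : ∃ K : Set E, IsCompact K ∧ ∀ n, U^[n] g ∈ K := by
    clear hfg
    induction hg using Submodule.span_induction with
    | mem x hx =>
      obtain ⟨c, hc⟩ := hx
      by_cases h0 : x = 0
      · refine ⟨{0}, isCompact_singleton, fun n => ?_⟩
        rw [h0, Function.iterate_fixed (map_zero U)]
        rfl
      · have hn : ‖c‖ = 1 := by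
          have := U.norm_map x
          rw [hc, norm_smul] at this
          exact (mul_eq_right₀ (norm_ne_zero_iff.2 h0)).1 this
        refine ⟨(fun a : ℂ => a • x) '' Metric.closedBall 0 1,
          (isCompact_closedBall 0 1).image (by fun_prop), fun n => ⟨c ^ n, by simp [hn], ?_⟩⟩
        induction n with
        | zero => simp
        | succ n ih =>
          rw [Function.iterate_succ_apply', ← ih, map_smul, hc, smul_smul, pow_succ]
    | zero =>
      refine ⟨{0}, isCompact_singleton, fun n => ?_⟩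
      rw [Function.iterate_fixed (map_zero U)]
      rfl
    | add x y _ _ hx hy =>
      obtain ⟨K1, h1, h1'⟩ := hx
      obtain ⟨K2, h2, h2'⟩ := hy
      refine ⟨_, h1.add h2, fun n => ?_⟩
      have : U^[n] (x + y) = U^[n] x + U^[n] y := by
        induction n with
        | zero => rfl
        | succ n ih => simp only [Function.iterate_succ_apply', ih, map_add]
      rw [this]
      exact add_mem_add (h1' n) (h2' n)
    | smul a x _ hx =>
      obtain ⟨K1, h1, h1'⟩ := hx
      refine ⟨(fun y => a • y) '' K1, h1.image (by fun_prop), fun n => ⟨_, h1' n, ?_⟩⟩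
      induction n with
      | zero => rfl
      | succ n ih =>
        simp only [Function.iterate_succ_apply'] at ih ⊢
        rw [← ih, map_smul]
  obtain ⟨K, hK, hK'⟩ := hK
  exact ⟨K, hK, fun n => U^[n] g, hK', fun n => by rw [hiso]; exact hfg⟩

theorem two_close {E F : Type*} [MetricSpace E] [MetricSpace F] {K : Set E} {L : Set F}
    (hK : IsCompact K) (hL : IsCompact L) (g : ℕ → E) (h : ℕ → F) (hg : ∀ n, g n ∈ K)
    (hh : ∀ n, h n ∈ L) {ε : ℝ} (hε : 0 < ε) :
    ∃ k l, k < l ∧ dist (g k) (g l) < ε ∧ dist (h k) (h l) < ε := by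
  obtain ⟨a, -, φ, hφ, hlim⟩ := (hK.prod hL).tendsto_subseq (x := fun n => (g n, h n))
    (fun n => ⟨hg n, hh n⟩)
  obtain ⟨N, hN⟩ := Metric.cauchySeq_iff.1 hlim.cauchySeq ε hε
  have := hN N le_rfl (N + 1) (Nat.le_succ N)
  simp only [Function.comp, Prod.dist_eq, max_lt_iff] at this
  exact ⟨φ N, φ (N + 1), hφ (Nat.lt_succ_self N), this.1, this.2⟩

end Pool.Agent.H626Z.RSub
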