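import Pool.Agent.H626Z.RSub.Comb
import Pool.Agent.H626Z.RSub.Dyn

set_option autoImplicit false
set_option maxHeartbeats 400000

namespace Pool.Agent.H626Z.RSub

open MeasureTheory Set Filter Topology

lemma continuous_shift : Continuous (shift : (ℤ → Bool) → (ℤ → Bool)) :=
  continuous_pi fun i => continuous_apply (i + 1)

lemma isClosed_window (i : ℤ) (l : ℕ) :
    IsClosed {x : ℤ → Bool | fib.Legal (List.ofFn fun j : Fin l => x (i + (j : ℕ)))} := by
  have hc : Continuous (fun x : ℤ → Bool => fun j : Fin l => x (i + (j : ℕ))) :=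
    continuous_pi fun j => continuous_apply _
  exact (isClosed_discrete {y : Fin l → Bool | fib.Legal (List.ofFn y)}).preimage hc

lemma isClosed_subshift : IsClosed fib.subshift := by
  unfold RandSubst.subshift
  simp only [ofPred_forall]
  exact isClosed_iInter fun i => isClosed_iInter fun l => isClosed_window i l

lemma mapsTo_subshift : MapsTo shift fib.subshift fib.subshift := by
  intro x hx i l
  have := hx (i + 1) l
  have e : (fun j : Fin l => shift x (i + (j : ℕ))) = fun j : Fin l => x (i + 1 + (j : ℕ)) := by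
    funext j
    simp only [shift]
    congr 1
    ring
  rw [e]
  exact this

abbrev PP := (ℤ → Bool) × (ℤ → Bool)

def TT (w : PP) : PP := (shift w.1, shift w.2)

lemma continuous_TT : Continuous TT :=
  (continuous_shift.comp continuous_fst).prodMk (continuous_shift.comp continuous_snd)

def mw (w : PP) (j : ℕ) (s : ℤ) : ℕ :=
  mis (w.1 s) (w.1 (s + 3 * j)) (w.2 s) (w.2 (s + 3 * j))

lemma continuous_mw (j : ℕ) (s : ℤ) : Continuous fun w => mw w j s := by
  have h1 : Continuous fun w : PP => (w.1 s, w.1 (s + 3 * j), w.2 s, w.2 (s + 3 * j)) := by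
    fun_prop
  exact (continuous_of_discreteTopology
    (f := fun q : Bool × Bool × Bool × Bool => mis q.1 q.2.1 q.2.2.1 q.2.2.2)).comp h1

lemma mw_TT (w : PP) (j : ℕ) (s : ℤ) : mw (TT w) j s = mw w j (s + 1) := by
  simp only [mw, TT, shift]
  rw [show s + 3 * (j : ℤ) + 1 = s + 1 + 3 * j by ring]

lemma isClosed_count (j L : ℕ) (s : ℤ) :
    IsClosed {w : PP | L ≤ 32 * ∑ i ∈ Finset.range L, mw w j (s + i)} :=
  isClosed_le continuous_const (continuous_const.mul
    (continuous_finsetSum _ fun i _ => continuous_mw j _))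

/-- the closed invariant set of pairs -/
def WS (L : ℕ → ℕ) : Set PP :=
  {w | w.1 ∈ fib.subshift ∧ w.2 ∈ fib.subshift ∧
    ∀ j, 1 ≤ j → ∀ s : ℤ, L j ≤ 32 * ∑ i ∈ Finset.range (L j), mw w j (s + (i : ℕ))}

lemma isClosed_WS (L : ℕ → ℕ) : IsClosed (WS L) := by
  refine (isClosed_subshift.preimage continuous_fst).inter
    ((isClosed_subshift.preimage continuous_snd).inter ?_)
  change IsClosed {w : PP | ∀ j, 1 ≤ j → ∀ s : ℤ,
    L j ≤ 32 * ∑ i ∈ Finset.range (L j), mw w j (s + i)}
  simp only [ofPred_forall]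
  exact isClosed_iInter fun j => isClosed_iInter fun _ => isClosed_iInter fun s =>
    isClosed_count j (L j) s

lemma mapsTo_WS (L : ℕ → ℕ) : MapsTo TT (WS L) (WS L) := by
  rintro w ⟨h1, h2, h3⟩
  refine ⟨mapsTo_subshift h1, mapsTo_subshift h2, fun j hj s => ?_⟩
  have := h3 j hj (s + 1)
  simp only [mw_TT]
  convert this using 4 with i
  ring

lemma exists_WS : ∃ L : ℕ → ℕ, (∀ j, 1 ≤ j → 0 < L j) ∧ (WS L).Nonempty := by
  have H := windows
  choose! L hL hW using H
  refine ⟨L, hL, ?_⟩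
  let u : ℕ → PP := fun n => (fun i => zz (2 * n) (i + n).toNat, fun i => xx (2 * n) (i + n).toNat)
  let U : Ultrafilter ℕ := Ultrafilter.of atTop
  have hU : (U : Filter ℕ) ≤ atTop := Ultrafilter.of_le atTop
  let w : PP := (U.map u).lim
  have hw : Tendsto u U (𝓝 w) := (U.map u).le_nhds_lim
  have key : ∀ C : Set PP, IsClosed C → (∀ᶠ n in atTop, u n ∈ C) → w ∈ C := fun C hC h =>
    hC.mem_of_tendsto hw (hU h)
  have hlen : ∀ n, 2 * n ≤ (WW (2 * n + 2)).length := fun n => by
    obtain ⟨t, h1, h2⟩ := WW_length (2 * n + 2)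
    rw [h1]
    simp
    omega
  refine ⟨w, fun i l => ?_, fun i l => ?_, fun j hj s => ?_⟩
  · refine key _ ((isClosed_window i l).preimage continuous_fst) ?_
    filter_upwards [eventually_ge_atTop (i.natAbs + l)] with n hn
    refine ⟨2 * n + 2, by omega, false, _, WW_mem _, ?_⟩
    have := window_infix (WW (2 * n + 2)) (i + n).toNat l (by have := hlen n; omega)
    convert this using 3 with k
    simp only [u, zz]
    congr 1
    omega
  · refine key _ ((isClosed_window i l).preimage continuous_snd) ?_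
    filter_upwards [eventually_ge_atTop (i.natAbs + l)] with n hn
    refine ⟨2 * n + 2, by omega, false, _, sw_WW_mem _, ?_⟩
    have := window_infix (sw 0 (WW (2 * n + 1))) (i + n).toNat l (by
      rw [length_sw]
      have := hlen n
      change 2 * n ≤ (th (WW (2 * n + 1))).length at this
      omega)
    convert this using 3 with k
    simp only [u, xx]
    congr 1
    omega
  · refine key _ (isClosed_count j (L j) s) ?_
    filter_upwards [eventually_ge_atTop (s.natAbs + L j)] with n hn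
    have := hW j hj (2 * n) (s + n).toNat (by have := hlen n; omega)
    change L j ≤ 32 * ∑ i ∈ Finset.range (L j), mw (u n) j (s + i)
    convert this using 3 with i
    simp only [mw, mm, u]
    rw [show (s + i + n).toNat = (s + n).toNat + i by omega,
      show (s + i + 3 * j + n).toNat = (s + n).toNat + i + 3 * j by omega]

/-- factor of a minimal set -/
lemma minimal_image {W₀ : Set PP} (π : PP → ℤ → Bool) (hπ : Continuous π)
    (hc : ∀ w, π (TT w) = shift (π w)) (hsub : ∀ w ∈ W₀, π w ∈ fib.subshift)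
    (h1 : W₀.Nonempty) (h2 : IsClosed W₀) (h3 : TT '' W₀ = W₀)
    (h4 : ∀ Z ⊆ W₀, Z.Nonempty → IsClosed Z → MapsTo TT Z Z → Z = W₀) :
    IsMinimalSubsystem fib.subshift (π '' W₀) := by
  refine ⟨by rintro _ ⟨w, hw, rfl⟩; exact hsub w hw, h1.image π,
    (h2.isCompact.image hπ).isClosed, ?_, ?_⟩
  · conv_rhs => rw [← h3]
    simp only [image_image, hc]
  · intro Z hZ ⟨z, hz⟩ hZc hZi
    obtain ⟨w, hw, rfl⟩ := hZ hz
    have := h4 (W₀ ∩ π ⁻¹' Z) inter_subset_left ⟨w, hw, hz⟩ (h2.inter (hZc.preimage hπ)) (by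
      rintro v ⟨hv1, hv2⟩
      refine ⟨h3 ▸ mem_image_of_mem TT hv1, ?_⟩
      change π (TT v) ∈ Z
      rw [hc, ← hZi]
      exact mem_image_of_mem _ hv2)
    refine Subset.antisymm hZ ?_
    rintro _ ⟨v, hv, rfl⟩
    rw [← this] at hv
    exact hv.2

/-- pure point factors give almost periodic coordinates -/
lemma approx_of_purePoint {W₀ : Set PP} (hW : MapsTo TT W₀ W₀) (ν : Measure W₀)
    [IsProbabilityMeasure ν] (hν : MeasurePreserving (hW.restrict TT W₀ W₀) ν ν)
    (π : PP → ℤ → Bool) (hπ : Continuous π) (hc : ∀ w, π (TT w) = shift (π w))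
    (hpp : IsPurePoint (π '' W₀)) {ε : ℝ} (hε : 0 < ε) :
    ∃ (E : Type) (_ : MetricSpace E) (K : Set E) (g : ℕ → E), IsCompact K ∧ (∀ n, g n ∈ K) ∧
      ∀ k l : ℕ, dist (g k) (g l) < ε →
        ν.real {w | π w k ≠ π w l} ≤ (3 * ε) ^ 2 := by
  have hY : MapsTo shift (π '' W₀) (π '' W₀) := by
    rintro _ ⟨w, hw, rfl⟩
    exact ⟨TT w, hW hw, hc w⟩
  let p : W₀ → (π '' W₀ : Set (ℤ → Bool)) := fun w => ⟨π w, mem_image_of_mem π w.2⟩
  have hp : Measurable p := (hπ.measurable.comp measurable_subtype_coe).subtype_mk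
  let μ : Measure (π '' W₀ : Set (ℤ → Bool)) := ν.map p
  have : IsProbabilityMeasure μ := Measure.isProbabilityMeasure_map hp.aemeasurable
  have hS : Measurable (hY.restrict shift _ _) :=
    (continuous_shift.measurable.comp measurable_subtype_coe).subtype_mk
  have hμ : MeasurePreserving (hY.restrict shift _ _) μ μ := by
    refine ⟨hS, ?_⟩
    simp only [μ]
    rw [Measure.map_map hS hp]
    conv_rhs => rw [← hν.map_eq, Measure.map_map hp hν.measurable]
    congr 1
    funext w
    exact Subtype.ext (hc w).symm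
  let s : ℕ → Set (π '' W₀ : Set (ℤ → Bool)) := fun n => {y | y.1 n = true}
  have hs : ∀ n, MeasurableSet (s n) := fun n => by
    have h : Measurable fun y : (π '' W₀ : Set (ℤ → Bool)) => y.1 (n : ℤ) :=
      (measurable_pi_apply (n : ℤ)).comp measurable_subtype_coe
    exact h (measurableSet_singleton true)
  let f : ℕ → Lp ℂ 2 μ := fun n => indicatorConstLp 2 (hs n) (measure_ne_top μ _) (1 : ℂ)
  let U := Lp.compMeasurePreservingₗᵢ ℂ (E := ℂ) (p := 2) (hY.restrict shift _ _) hμ
  have hf : ∀ n, U^[n] (f 0) = f n := by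
    intro n
    induction n with
    | zero => rfl
    | succ n ih =>
      rw [Function.iterate_succ_apply', ih]
      exact Lp.indicatorConstLp_compMeasurePreserving (hs n) (measure_ne_top μ _) (1 : ℂ) hμ
  obtain ⟨K, hK, g, hg, hd⟩ := approx_compact U (hpp hY μ hμ) (f 0) hε
  refine ⟨Lp ℂ 2 μ, inferInstance, K, g, hK, hg, fun k l hkl => ?_⟩
  have h1 : dist (f k) (f l) < 3 * ε := by
    have a1 := hd k
    have a2 := hd l
    rw [hf] at a1 a2
    have := dist_triangle4 (f k) (g k) (g l) (f l)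
    rw [dist_comm (g l)] at this
    linarith
  simp only [f] at h1
  rw [dist_indicatorConstLp_eq_norm, norm_indicatorConstLp (by norm_num) (by norm_num)] at h1
  simp only [norm_one, one_mul, ENNReal.toReal_ofNat] at h1
  have h2 : μ.real (symmDiff (s k) (s l)) = ν.real {w | π w k ≠ π w l} := by
    simp only [μ]
    rw [map_measureReal_apply hp ((hs k).symmDiff (hs l))]
    congr 1
    ext w
    simp only [mem_preimage, mem_symmDiff, s, p, mem_ofPred_eq]
    cases π w k <;> cases π w l <;> simp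
  rw [h2, ← Real.sqrt_eq_rpow] at h1
  have h3 := Real.sq_sqrt (measureReal_nonneg (μ := ν) (s := {w | π w k ≠ π w l}))
  rw [← h3]
  exact pow_le_pow_left₀ (Real.sqrt_nonneg _) h1.le 2

theorem exists_not_purePoint :
    ∃ Y, IsMinimalSubsystem fib.subshift Y ∧ ¬ IsPurePoint Y := by
  by_contra H
  push Not at H
  obtain ⟨L, hL, hne⟩ := exists_WS
  obtain ⟨W₀, hsub, h1, h2, h3, h4⟩ := exists_minimal TT continuous_TT (WS L) hne (isClosed_WS L)
    (mapsTo_WS L)
  have hW : MapsTo TT W₀ W₀ := fun w hw => h3 ▸ mem_image_of_mem TT hw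
  have : CompactSpace W₀ := isCompact_iff_compactSpace.1 h2.isCompact
  have : Nonempty W₀ := h1.to_subtype
  have hTc : Continuous (hW.restrict TT W₀ W₀) := continuous_TT.restrict hW
  obtain ⟨ν, hνp, hν⟩ := krylov (hW.restrict TT W₀ W₀) hTc
  have p1 := H _ (minimal_image Prod.fst continuous_fst (fun _ => rfl)
    (fun w hw => (hsub hw).1) h1 h2 h3 h4)
  have p2 := H _ (minimal_image Prod.snd continuous_snd (fun _ => rfl)
    (fun w hw => (hsub hw).2.1) h1 h2 h3 h4)
  obtain ⟨E, _, K, g, hK, hg, hgk⟩ := approx_of_purePoint hW ν hν Prod.fst continuous_fst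
    (fun _ => rfl) p1 (show (0 : ℝ) < 1 / 30 by norm_num)
  obtain ⟨E', _, K', g', hK', hg', hgk'⟩ := approx_of_purePoint hW ν hν Prod.snd continuous_snd
    (fun _ => rfl) p2 (show (0 : ℝ) < 1 / 30 by norm_num)
  obtain ⟨k, l, hkl, d1, d2⟩ := two_close hK hK' (fun n => g (3 * n)) (fun n => g' (3 * n))
    (fun n => hg _) (fun n => hg' _) (show (0 : ℝ) < 1 / 30 by norm_num)
  have b1 := hgk _ _ d1
  have b2 := hgk' _ _ d2
  obtain ⟨j, rfl⟩ : ∃ j, l = k + j := ⟨l - k, by omega⟩
  have hj : 1 ≤ j := by omega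
  have hcont : ∀ s : ℤ, Continuous fun w : W₀ => (mw w j s : ℝ) := fun s =>
    (continuous_of_discreteTopology (f := fun n : ℕ => (n : ℝ))).comp
      ((continuous_mw j s).comp continuous_subtype_val)
  have hint : ∀ s : ℤ, Integrable (fun w : W₀ => (mw w j s : ℝ)) ν := fun s =>
    (hcont s).integrable_of_hasCompactSupport (HasCompactSupport.of_compactSpace _)
  have hinv : ∀ (i : ℕ) (s : ℤ), ∫ w : W₀, (mw w j (s + i) : ℝ) ∂ν = ∫ w : W₀, (mw w j s : ℝ) ∂ν := by
    intro i s
    induction i with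
    | zero => simp
    | succ i ih =>
      rw [← ih]
      conv_rhs => rw [← hν.map_eq, integral_map hν.measurable.aemeasurable
        (hcont _).aestronglyMeasurable]
      refine integral_congr_ae (Eventually.of_forall fun w => ?_)
      have := mw_TT w j (s + i)
      simp only [MapsTo.val_restrict_apply, this]
      push_cast
      rw [add_assoc]
  set d := ∫ w : W₀, (mw w j ((3 * k : ℕ) : ℤ) : ℝ) ∂ν with hd
  have lower : (L j : ℝ) ≤ 32 * (L j * d) := by
    have e : (L j : ℝ) * d = ∫ w : W₀, ∑ i ∈ Finset.range (L j),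
        (mw w j (((3 * k : ℕ) : ℤ) + i) : ℝ) ∂ν := by
      rw [integral_finsetSum _ fun i _ => hint _]
      simp only [hinv, Finset.sum_const, Finset.card_range, nsmul_eq_mul, hd]
    rw [e, ← integral_const_mul]
    have : (L j : ℝ) = ∫ _ : W₀, (L j : ℝ) ∂ν := by simp
    rw [this]
    refine integral_mono (integrable_const _)
      ((integrable_finsetSum _ fun i _ => hint _).const_mul _) fun w => ?_
    have := (Nat.cast_le (α := ℝ)).2 ((hsub w.2).2.2 j hj ((3 * k : ℕ) : ℤ))
    rw [Nat.cast_mul, Nat.cast_sum] at this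
    simpa using this
  have upper : d ≤ ν.real {w | (w : PP).1 ((3 * k : ℕ) : ℤ) ≠ (w : PP).1 ((3 * (k + j) : ℕ) : ℤ)} +
      ν.real {w | (w : PP).2 ((3 * k : ℕ) : ℤ) ≠ (w : PP).2 ((3 * (k + j) : ℕ) : ℤ)} := by
    have m1 : MeasurableSet {w : W₀ | (w : PP).1 ((3 * k : ℕ) : ℤ) ≠
        (w : PP).1 ((3 * (k + j) : ℕ) : ℤ)} :=
      (isOpen_ne_fun (by fun_prop) (by fun_prop)).measurableSet
    have m2 : MeasurableSet {w : W₀ | (w : PP).2 ((3 * k : ℕ) : ℤ) ≠
        (w : PP).2 ((3 * (k + j) : ℕ) : ℤ)} :=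
      (isOpen_ne_fun (by fun_prop) (by fun_prop)).measurableSet
    have i1 : Integrable (indicator {w : W₀ | (w : PP).1 ((3 * k : ℕ) : ℤ) ≠
        (w : PP).1 ((3 * (k + j) : ℕ) : ℤ)} (1 : W₀ → ℝ)) ν :=
      (integrable_const (1 : ℝ)).indicator m1
    have i2 : Integrable (indicator {w : W₀ | (w : PP).2 ((3 * k : ℕ) : ℤ) ≠
        (w : PP).2 ((3 * (k + j) : ℕ) : ℤ)} (1 : W₀ → ℝ)) ν :=
      (integrable_const (1 : ℝ)).indicator m2
    rw [← integral_indicator_one m1, ← integral_indicator_one m2, ← integral_add i1 i2]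
    refine integral_mono (hint _) (i1.add i2) fun w => ?_
    have e : ((3 * k : ℕ) : ℤ) + 3 * j = ((3 * (k + j) : ℕ) : ℤ) := by push_cast; ring
    simp only [mw, mis, e, indicator, mem_ofPred_eq, Pi.one_apply]
    by_cases c1 : (w : PP).1 ((3 * k : ℕ) : ℤ) = (w : PP).1 ((3 * (k + j) : ℕ) : ℤ) <;>
      by_cases c2 : (w : PP).2 ((3 * k : ℕ) : ℤ) = (w : PP).2 ((3 * (k + j) : ℕ) : ℤ) <;>
      simp only [c1, c2, and_self, and_true, and_false, true_and, false_and, if_true, if_false,
        ne_eq, not_true_eq_false, not_false_eq_true] <;> norm_num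
  have hLpos : (0 : ℝ) < L j := by exact_mod_cast hL j hj
  have : 1 ≤ 32 * d := by
    by_contra hlt
    push Not at hlt
    nlinarith
  norm_num at b1 b2 upper
  linarith

end Pool.Agent.H626Z.RSub
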