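import Pool.Agent.H626Z.RSub.Defs

set_option autoImplicit false
set_option maxHeartbeats 400000

namespace Pool.Agent.H626Z.RSub

open Polynomial Real

lemma fib_compatible : fib.Compatible := by
  unfold RandSubst.Compatible
  decide

def fibM : Matrix Bool Bool ℤ := fun a b => if a && b then 0 else 1

lemma charpoly_fibM : fibM.charpoly = X ^ 2 - X - 1 := by
  rw [Matrix.charpoly_of_card_eq_two _ (by simp)]
  have h1 : fibM.trace = 1 := by decide
  have h2 : fibM.det = -1 := by
    rw [← Matrix.det_submatrix_equiv_self finTwoEquiv, Matrix.det_fin_two]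
    decide
  rw [h1, h2]
  simp [sub_eq_add_neg]

lemma roots_golden (z : ℂ) (h : z ^ 2 - z - 1 = 0) :
    z = (goldenRatio : ℝ) ∨ z = (goldenConj : ℝ) := by
  have h1 : ((goldenRatio : ℝ) : ℂ) + (goldenConj : ℝ) = 1 := by
    exact_mod_cast goldenRatio_add_goldenConj
  have h2 : ((goldenRatio : ℝ) : ℂ) * (goldenConj : ℝ) = -1 := by
    exact_mod_cast goldenRatio_mul_goldenConj
  have : (z - (goldenRatio : ℝ)) * (z - (goldenConj : ℝ)) = 0 := by
    linear_combination h - z * h1 + h2
  rcases mul_eq_zero.1 this with h | h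
  · exact Or.inl (sub_eq_zero.1 h)
  · exact Or.inr (sub_eq_zero.1 h)

lemma norm_conj_lt : ‖((goldenConj : ℝ) : ℂ)‖ < 1 := by
  rw [Complex.norm_real, Real.norm_eq_abs, abs_lt]
  exact ⟨neg_one_lt_goldenConj, by linarith [goldenConj_neg]⟩

lemma fib_pisot : fib.IrreduciblePisot := by
  have hφ : aeval goldenRatio (X ^ 2 - X - 1 : ℤ[X]) = 0 := by
    simp only [map_sub, map_pow, aeval_X, map_one, goldenRatio_sq]; ring
  have hφ' : aeval goldenRatio (X ^ 2 - X - 1 : ℚ[X]) = 0 := by
    simp only [map_sub, map_pow, aeval_X, map_one, goldenRatio_sq]; ring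
  refine ⟨fibM, by decide, ⟨by decide, 2, by norm_num, by decide⟩, ?_, goldenRatio, ?_, ?_,
    one_lt_goldenRatio, ?_, ?_⟩
  · have e : (fibM.map (Int.cast : ℤ → ℚ)).charpoly = X ^ 2 - X - 1 := by
      have := Matrix.charpoly_map fibM (Int.castRingHom ℚ)
      rw [charpoly_fibM] at this
      simpa using this
    rw [e]
    have hdeg : (X ^ 2 - X - 1 : ℚ[X]).natDegree = 2 := by compute_degree!
    rw [irreducible_iff_roots_eq_zero_of_degree_le_three (by omega) (by omega)]
    apply Multiset.eq_zero_of_forall_notMem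
    intro q hq
    have h0 := (mem_roots'.1 hq).2
    simp only [IsRoot, eval_sub, eval_pow, eval_X, eval_one] at h0
    have h1 : ((q : ℝ) : ℂ) ^ 2 - ((q : ℝ) : ℂ) - 1 = 0 := by exact_mod_cast h0
    rcases roots_golden _ h1 with h | h
    · exact goldenRatio_irrational ⟨q, by exact_mod_cast h⟩
    · exact goldenConj_irrational ⟨q, by exact_mod_cast h⟩
  · rw [charpoly_fibM]; exact hφ
  · intro z hz
    rw [charpoly_fibM] at hz
    simp only [map_sub, map_pow, aeval_X, map_one] at hz
    rcases roots_golden z hz with rfl | rfl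
    · rw [Complex.norm_real, Real.norm_eq_abs, abs_of_pos goldenRatio_pos]
    · linarith [norm_conj_lt, one_lt_goldenRatio]
  · exact ⟨X ^ 2 - X - 1, by monicity!, hφ⟩
  · intro z hz hne
    obtain ⟨q, hq⟩ := minpoly.dvd ℚ goldenRatio hφ'
    have : aeval z (X ^ 2 - X - 1 : ℚ[X]) = 0 := by rw [hq, map_mul, hz, zero_mul]
    simp only [map_sub, map_pow, aeval_X, map_one] at this
    rcases roots_golden z this with rfl | rfl
    · exact absurd rfl hne
    · exact norm_conj_lt

end Pool.Agent.H626Z.RSub
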